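import Pool.Agent.W836.SH.Stm2

/-! # Heller's theorem from the bound for totally unimodular families -/

open scoped Classical

namespace Pool.Agent.W638.SH

open Pool.Agent.W836.SH

/-- network-like columns: entries in `{-1,0,1}`, at most one `1` and at most one `-1` -/
def Net {k l : ℕ} (A : Matrix (Fin k) (Fin l) ℤ) : Prop :=
  ∀ j, (∀ i, A i j = 0 ∨ A i j = 1 ∨ A i j = -1) ∧
    (∀ i i', A i j = 1 → A i' j = 1 → i = i') ∧ (∀ i i', A i j = -1 → A i' j = -1 → i = i')

theorem tri_mul {a b : ℤ} (ha : a = -1 ∨ a = 0 ∨ a = 1) (hb : b = -1 ∨ b = 0 ∨ b = 1) :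
    a * b = -1 ∨ a * b = 0 ∨ a * b = 1 := by
  rcases ha with rfl | rfl | rfl <;> rcases hb with rfl | rfl | rfl <;> simp

theorem net_det : ∀ (k : ℕ) (A : Matrix (Fin k) (Fin k) ℤ), Net A →
    A.det = -1 ∨ A.det = 0 ∨ A.det = 1 := by
  intro k
  induction k with
  | zero => intro A _; right; right; simp
  | succ k ih =>
    intro A hA
    by_cases hc : ∃ (j : Fin (k + 1)) (i0 : Fin (k + 1)), ∀ i, i ≠ i0 → A i j = 0
    · obtain ⟨j, i0, h0⟩ := hc
      rw [Matrix.det_succ_column A j, Finset.sum_eq_single i0]
      · refine tri_mul (tri_mul ?_ ?_) ?_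
        · rcases neg_one_pow_eq_or ℤ (i0 + j : ℕ) with h | h
          · rw [h]; right; right; rfl
          · rw [h]; left; rfl
        · rcases (hA j).1 i0 with h | h | h <;> simp [h]
        · apply ih
          intro j'
          obtain ⟨h1, h2, h3⟩ := hA (j.succAbove j')
          refine ⟨fun i => h1 _, fun i i' hi hi' => ?_, fun i i' hi hi' => ?_⟩
          · exact Fin.succAbove_right_injective (h2 _ _ hi hi')
          · exact Fin.succAbove_right_injective (h3 _ _ hi hi')
      · intro b _ hb
        rw [h0 b hb]; simp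
      · intro h; exact absurd (Finset.mem_univ _) h
    · push Not at hc
      right; left
      rw [← Matrix.exists_vecMul_eq_zero_iff]
      refine ⟨fun _ => 1, ?_, ?_⟩
      · intro h
        have := congrFun h 0
        simp at this
      · funext j
        obtain ⟨h1, h2, h3⟩ := hA j
        obtain ⟨i1, -, hi1⟩ := hc j 0
        obtain ⟨i2, hne, hi2⟩ := hc j i1
        simp only [Matrix.vecMul, dotProduct, one_mul, Pi.zero_apply]
        have hz : ∀ i, i ≠ i1 ∧ i ≠ i2 → A i j = 0 := by
          rintro i ⟨hi, hi'⟩
          rcases h1 i with h | h | h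
          · exact h
          · rcases h1 i1 with g | g | g
            · exact absurd g hi1
            · exact absurd (h2 _ _ h g) hi
            · rcases h1 i2 with g' | g' | g'
              · exact absurd g' hi2
              · exact absurd (h2 _ _ h g') hi'
              · exact absurd (h3 _ _ g' g) hne
          · rcases h1 i1 with g | g | g
            · exact absurd g hi1
            · rcases h1 i2 with g' | g' | g'
              · exact absurd g' hi2
              · exact absurd (h2 _ _ g' g) hne
              · exact absurd (h3 _ _ h g') hi'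
            · exact absurd (h3 _ _ h g) hi
        rw [Finset.sum_eq_add i1 i2 (Ne.symm hne) (fun c _ hc => hz c hc)
          (fun h => absurd (Finset.mem_univ _) h) (fun h => absurd (Finset.mem_univ _) h)]
        rcases h1 i1 with g | g | g
        · exact absurd g hi1
        · rcases h1 i2 with g' | g' | g'
          · exact absurd g' hi2
          · exact absurd (h2 _ _ g' g) hne
          · rw [g, g']; norm_num
        · rcases h1 i2 with g' | g' | g'
          · exact absurd g' hi2
          · rw [g, g']; norm_num
          · exact absurd (h3 _ _ g' g) hne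

/-- the column `e_a - e_b` -/
def col {m : ℕ} (p : Option (Fin m) × Option (Fin m)) (i : Fin m) : ℤ :=
  (if p.1 = some i then 1 else 0) - (if p.2 = some i then 1 else 0)

/-- the index set -/
def T (m : ℕ) : Finset (Option (Fin m) × Option (Fin m)) :=
  insert (none, none) (Finset.univ : Finset (Option (Fin m))).offDiag

theorem T_card (m : ℕ) : (T m).card = m ^ 2 + m + 1 := by
  unfold T
  rw [Finset.card_insert_of_notMem (by simp), Finset.offDiag_card]
  simp
  have : (m + 1) * (m + 1) = m ^ 2 + m + (m + 1) := by ring
  rw [this]; simp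

theorem T_one {m : ℕ} {p : Option (Fin m) × Option (Fin m)} (hp : p ∈ T m) (i : Fin m) :
    col p i = 1 ↔ p.1 = some i := by
  unfold T at hp
  simp only [Finset.mem_insert, Finset.mem_offDiag, Finset.mem_univ, true_and] at hp
  unfold col
  rcases hp with rfl | hp
  · simp
  · by_cases h1 : p.1 = some i
    · have h2 : p.2 ≠ some i := fun h => hp (h1.trans h.symm)
      simp [h1, h2]
    · simp only [h1, if_false, iff_false]
      split_ifs <;> norm_num

theorem T_neg {m : ℕ} {p : Option (Fin m) × Option (Fin m)} (hp : p ∈ T m) (i : Fin m) :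
    col p i = -1 ↔ p.2 = some i := by
  unfold T at hp
  simp only [Finset.mem_insert, Finset.mem_offDiag, Finset.mem_univ, true_and] at hp
  unfold col
  rcases hp with rfl | hp
  · simp
  · by_cases h1 : p.2 = some i
    · have h2 : p.1 ≠ some i := fun h => hp (h.trans h1.symm)
      simp [h1, h2]
    · simp only [h1, if_false, iff_false]
      split_ifs <;> norm_num

theorem col_tri {m : ℕ} (p : Option (Fin m) × Option (Fin m)) (i : Fin m) :
    col p i = 0 ∨ col p i = 1 ∨ col p i = -1 := by
  unfold col
  split_ifs <;> norm_num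

theorem col_inj {m : ℕ} {p q : Option (Fin m) × Option (Fin m)} (hp : p ∈ T m) (hq : q ∈ T m)
    (h : ∀ i, col p i = col q i) : p = q := by
  apply Prod.ext
  · apply Option.ext
    intro i
    have h1 := T_one hp i
    have h2 := T_one hq i
    rw [← h i] at h2
    rw [← h1, h2]
  · apply Option.ext
    intro i
    have h1 := T_neg hp i
    have h2 := T_neg hq i
    rw [← h i] at h2
    rw [← h1, h2]

theorem mem_heller (m : ℕ) : m ^ 2 + m + 1 ∈ hellerSet m := by
  obtain ⟨e⟩ : Nonempty (Fin (m ^ 2 + m + 1) ≃ T m) :=
    ⟨((T m).equivFinOfCardEq (T_card m)).symm⟩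
  refine ⟨Matrix.of fun i j => col (e j).1 i, ?_, ?_, ?_⟩
  · apply le_antisymm
    · exact (Matrix.rank_le_height _)
    · set A : Matrix (Fin m) (Fin (m ^ 2 + m + 1)) ℚ :=
        (Matrix.of fun i j => col (e j).1 i : Matrix (Fin m) (Fin (m ^ 2 + m + 1)) ℤ).map
          (Int.cast : ℤ → ℚ) with hA
      have hmem : ∀ i : Fin m, ((some i, none) : Option (Fin m) × Option (Fin m)) ∈ T m := by
        intro i
        unfold T
        simp
      let X : Matrix (Fin (m ^ 2 + m + 1)) (Fin m) ℚ :=
        Matrix.of fun j i => if j = e.symm ⟨(some i, none), hmem i⟩ then 1 else 0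
      have hX : A * X = 1 := by
        ext i i'
        rw [Matrix.mul_apply]
        simp only [X, Matrix.of_apply, mul_ite, mul_one, mul_zero, Finset.sum_ite_eq',
          Finset.mem_univ, if_true]
        rw [hA, Matrix.map_apply, Matrix.of_apply, Equiv.apply_symm_apply]
        unfold col
        by_cases h : i = i'
        · subst h; simp
        · have h' : ¬ i' = i := fun g => h g.symm
          simp [h, h']
      have h1 := Matrix.rank_mul_le_left A X
      rw [hX, Matrix.rank_one] at h1
      simpa using h1
  · intro j j' h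
    apply e.injective
    apply Subtype.ext
    exact col_inj (e j).2 (e j').2 h
  · intro c _
    apply net_det
    intro j
    refine ⟨fun i => col_tri _ _, fun i i' hi hi' => ?_, fun i i' hi hi' => ?_⟩
    · have h1 := (T_one (e (c j)).2 i).1 hi
      have h2 := (T_one (e (c j)).2 i').1 hi'
      rw [h1] at h2
      exact Option.some_injective _ h2
    · have h1 := (T_neg (e (c j)).2 i).1 hi
      have h2 := (T_neg (e (c j)).2 i').1 hi'
      rw [h1] at h2
      exact Option.some_injective _ h2

theorem exists_cols {m n : ℕ} (M : Matrix (Fin m) (Fin n) ℤ)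
    (hr : (M.map (Int.cast : ℤ → ℚ)).rank = m) :
    ∃ c : Fin m → Fin n, (M.submatrix id c).det ≠ 0 := by
  set A := M.map (Int.cast : ℤ → ℚ) with hA
  have h1 : Module.finrank ℚ (Submodule.span ℚ (Set.range A.col)) = m := by
    rw [← Matrix.rank_eq_finrank_span_cols]; exact hr
  obtain ⟨f, hf1, hf2, hf3⟩ := Submodule.exists_fun_fin_finrank_span_eq ℚ (Set.range A.col)
  have h2 : ∀ i : Fin m, ∃ j : Fin n, A.col j = f (Fin.cast h1.symm i) := fun i => hf1 _
  choose c hc using h2
  refine ⟨c, fun hdet => ?_⟩
  have h3 : LinearIndependent ℚ (A.submatrix id c).col := by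
    have h4 : LinearIndependent ℚ (f ∘ (Fin.cast h1.symm)) :=
      hf3.comp _ (Fin.cast_injective _)
    convert h4 using 1
    funext i
    rw [Function.comp_apply, ← hc i]
    rfl
  rw [Matrix.linearIndependent_cols_iff_isUnit, Matrix.isUnit_iff_isUnit_det] at h3
  have h5 : (A.submatrix id c).det = (((M.submatrix id c).det : ℤ) : ℚ) := by
    rw [hA]
    exact ((Int.castRingHom ℚ).map_det (M.submatrix id c)).symm
  rw [h5, hdet] at h3
  simp at h3

/-- minors of a matrix containing the identity -/
theorem minor {m n : ℕ} (N : Matrix (Fin m) (Fin n) ℤ) (c : Fin m → Fin n)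
    (hc : N.submatrix id c = 1)
    (hN : ∀ d : Fin m → Fin n, (N.submatrix id d).det = -1 ∨ (N.submatrix id d).det = 0 ∨
      (N.submatrix id d).det = 1) (k : ℕ) (r : Fin k → Fin m) (d : Fin k → Fin n) :
    (N.submatrix r d).det = -1 ∨ (N.submatrix r d).det = 0 ∨ (N.submatrix r d).det = 1 := by
  by_cases hr : Function.Injective r
  · let d' : Fin m → Fin n := fun i => if h : ∃ a, r a = i then d h.choose else c i
    have hd' : ∀ a, d' (r a) = d a := by
      intro a
      have h : ∃ a', r a' = r a := ⟨a, rfl⟩
      simp only [d', dif_pos h]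
      rw [hr h.choose_spec]
    have hd2 : ∀ i, (¬ ∃ a, r a = i) → d' i = c i := by
      intro i h
      simp only [d', dif_neg h]
    have h1 := Matrix.twoBlockTriangular_det' (N.submatrix id d') (fun i => ∃ a, r a = i) (by
      rintro i ⟨a, rfl⟩ j hj
      rw [Matrix.submatrix_apply, hd2 j hj]
      have := congrFun (congrFun hc (r a)) j
      rw [Matrix.submatrix_apply] at this
      rw [this, Matrix.one_apply_ne]
      rintro rfl
      exact hj ⟨a, rfl⟩)
    have h2 : ((N.submatrix id d').toSquareBlockProp fun i => ¬ ∃ a, r a = i) = 1 := by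
      ext i j
      rw [Matrix.toSquareBlockProp_def, Matrix.of_apply, Matrix.submatrix_apply, hd2 j.1 j.2]
      have := congrFun (congrFun hc i.1) j.1
      rw [Matrix.submatrix_apply] at this
      rw [this, Matrix.one_apply, Matrix.one_apply]
      simp only [Subtype.ext_iff]
    rw [h2, Matrix.det_one, mul_one] at h1
    let e : Fin k ≃ {i : Fin m // ∃ a, r a = i} := Equiv.ofBijective (fun a => ⟨r a, a, rfl⟩)
      ⟨fun a b h => hr (Subtype.ext_iff.1 h), fun ⟨i, a, h⟩ => ⟨a, Subtype.ext h⟩⟩
    have h3 : ((N.submatrix id d').toSquareBlockProp fun i => ∃ a, r a = i).submatrix e e =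
        N.submatrix r d := by
      ext a b
      rw [Matrix.submatrix_apply, Matrix.toSquareBlockProp_def, Matrix.of_apply,
        Matrix.submatrix_apply, Matrix.submatrix_apply]
      simp only [e, Equiv.ofBijective_apply, id, hd']
    have h4 := hN d'
    rw [h1, ← Matrix.det_submatrix_equiv_self e, h3] at h4
    exact h4
  · right; left
    rw [Function.Injective] at hr
    push Not at hr
    obtain ⟨a, b, hab, hne⟩ := hr
    apply Matrix.det_zero_of_row_eq hne
    funext j
    rw [Matrix.submatrix_apply, Matrix.submatrix_apply, hab]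

theorem upper (h : S_HELLER) (m n : ℕ) (hn : n ∈ hellerSet m) : n ≤ m ^ 2 + m + 1 := by
  obtain ⟨M, hr, hdist, hM⟩ := hn
  obtain ⟨c, hc⟩ := exists_cols M hr
  have hM' : ∀ d : Fin m → Fin n, (M.submatrix id d).det = -1 ∨ (M.submatrix id d).det = 0 ∨
      (M.submatrix id d).det = 1 := by
    intro d
    by_cases hd : Function.Injective d
    · exact hM d hd
    · right; left
      rw [Function.Injective] at hd
      push Not at hd
      obtain ⟨a, b, hab, hne⟩ := hd
      apply Matrix.det_zero_of_column_eq hne
      intro i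
      rw [Matrix.submatrix_apply, Matrix.submatrix_apply, hab]
  have hdet : (M.submatrix id c).det = -1 ∨ (M.submatrix id c).det = 1 := by
    rcases hM' c with h1 | h1 | h1
    · exact Or.inl h1
    · exact absurd h1 hc
    · exact Or.inr h1
  set B := M.submatrix id c with hB
  have hu : IsUnit B.det := by
    rcases hdet with h1 | h1 <;> rw [h1] <;> simp
  set N : Matrix (Fin m) (Fin n) ℤ := B⁻¹ * M with hN
  have hBN : B * N = M := by
    rw [hN, ← Matrix.mul_assoc, Matrix.mul_nonsing_inv _ hu, Matrix.one_mul]
  have hsub : ∀ d : Fin m → Fin n, N.submatrix id d = B⁻¹ * M.submatrix id d := by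
    intro d
    rw [hN]
    ext i j
    simp [Matrix.mul_apply]
  have hNc : N.submatrix id c = 1 := by
    rw [hsub c, ← hB, Matrix.nonsing_inv_mul _ hu]
  have hinv : B⁻¹.det = -1 ∨ B⁻¹.det = 0 ∨ B⁻¹.det = 1 := by
    have h1 : B⁻¹.det * B.det = 1 := by
      rw [← Matrix.det_mul, Matrix.nonsing_inv_mul _ hu, Matrix.det_one]
    rcases hdet with h2 | h2
    · left; rw [h2] at h1; omega
    · right; right; rw [h2] at h1; omega
  have hNd : ∀ d : Fin m → Fin n, (N.submatrix id d).det = -1 ∨ (N.submatrix id d).det = 0 ∨
      (N.submatrix id d).det = 1 := by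
    intro d
    rw [hsub d, Matrix.det_mul]
    exact tri_mul hinv (hM' d)
  have hmin := minor N c hNc hNd
  let v : Fin n → (Fin m → ℝ) := fun j i => (N i j : ℝ)
  have hv : Function.Injective v := by
    intro j j' hj
    apply hdist
    intro i
    rw [← hBN, Matrix.mul_apply, Matrix.mul_apply]
    apply Finset.sum_congr rfl
    intro l _
    have := congrFun hj l
    simp only [v] at this
    rw [Int.cast_injective this]
  have key := h (Fin m) Finset.univ (Finset.univ.image v) ?_ ?_ ?_
  · rw [Finset.card_image_of_injective _ hv] at key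
    simpa using key
  · intro k r cc hcc
    have h1 : ∀ j, ∃ d, v d = cc j := by
      intro j
      have := hcc j
      simpa using this
    choose d hd using h1
    have h2 : (Matrix.of fun i j => cc j (r i) : Matrix (Fin k) (Fin k) ℝ) =
        (N.submatrix r d).map (Int.castRingHom ℝ) := by
      ext i j
      rw [Matrix.of_apply, ← hd j]
      rfl
    rw [h2, ← RingHom.mapMatrix_apply, ← RingHom.map_det]
    rcases hmin k r d with h3 | h3 | h3 <;> rw [h3] <;> simp
  · intro w hw i _
    simp only [Finset.mem_image, Finset.mem_univ, true_and] at hw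
    obtain ⟨j, rfl⟩ := hw
    have h1 := hmin 1 (fun _ => i) (fun _ => j)
    rw [Matrix.det_fin_one, Matrix.submatrix_apply] at h1
    simp only [v]
    rcases h1 with h1 | h1 | h1 <;> rw [h1] <;> simp
  · intro w _ i hi
    exact absurd (Finset.mem_univ i) hi

theorem main (h : S_HELLER) : S_H1 := fun m =>
  ⟨mem_heller m, fun n hn => upper h m n hn⟩

end Pool.Agent.W638.SH
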